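import Pool.Agent.R100.DC.Fin
import Pool.Agent.R100.DC.K
import Pool.Agent.R100.DC.V
import Pool.Agent.R100.DC.E
import Pool.Agent.R100.DC.N
import Pool.Agent.R100.DC.C1
import Pool.Agent.R100.DC.C2
import Pool.Agent.R100.DC.C3
import Pool.Agent.R100.DC.C
import Pool.Agent.R100.DC.F1
import Pool.Agent.R100.DC.F

/-!
# Optimal density partitions of `K_4`-free graphs into 2-clubs

Every finite graph without `K_4` has a density-maximising partition all of whose parts have
diameter at most 2; in fact every density-maximising partition with the largest possible number of
parts has this property.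
-/

set_option autoImplicit false

namespace Pool.Agent.Results.MP_9c5a5c_co.KFourFree

open R100DC Finset

/-- Every `K_4`-free graph has an optimal partition that is a 2-club clustering, and every optimal
partition with the largest number of parts is one. -/
theorem result (V : Type) [Fintype V] [DecidableEq V] (G : SimpleGraph V) (hG : G.CliqueFree 4) :
    (∃ P : Finpartition (univ : Finset V), Optimal G P ∧ ∀ S ∈ P.parts, TwoClub G S) ∧
    ∀ P : Finpartition (univ : Finset V), Optimal G P →
      (∀ P' : Finpartition (univ : Finset V), Optimal G P' → P'.parts.card ≤ P.parts.card) →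
      ∀ S ∈ P.parts, TwoClub G S :=
  final (sF (sF1 (sC sK sV sE sN (sC1 sK sV sE sN) (sC2 sK sV sE sN) (sC3 sK sV sE sN)))) V G hG

end Pool.Agent.Results.MP_9c5a5c_co.KFourFree
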